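import Pool.Agent.H174.GP.StP

/-! Laplace moments. -/

set_option autoImplicit false

open MeasureTheory ProbabilityTheory Finset

namespace Pool.Agent.H597.GP174

open Pool.Agent.H174.GP

theorem integrable_abs {f : ℝ → ℝ} (hf : IntegrableOn f (Set.Ioi 0)) :
    Integrable (fun x : ℝ => f |x|) := by
  have h1 : IntegrableOn (fun x : ℝ => f |x|) (Set.Ioi 0) := by
    refine hf.congr_fun (fun x hx => ?_) measurableSet_Ioi
    have hx' : (0 : ℝ) < x := hx
    simp only [abs_of_pos hx']
  have h2 : IntegrableOn (fun x : ℝ => f |x|) (Set.Iic 0) := by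
    rw [← Measure.map_neg_eq_self (volume : Measure ℝ)]
    let m : MeasurableEmbedding fun x : ℝ => -x := (Homeomorph.neg ℝ).measurableEmbedding
    rw [m.integrableOn_map_iff]
    simp_rw [Function.comp_def, abs_neg, Set.neg_preimage, Set.neg_Iic, neg_zero]
    exact Iff.mpr integrableOn_Ici_iff_integrableOn_Ioi h1
  rw [← integrableOn_univ, ← Set.Iic_union_Ioi (a := (0 : ℝ))]
  exact h2.union h1

theorem dens_meas : Measurable (fun x : ℝ => ENNReal.ofReal (Real.exp (-|x|) / 2)) := by
  fun_prop

theorem dens_toReal (x : ℝ) : (ENNReal.ofReal (Real.exp (-|x|) / 2)).toReal = Real.exp (-|x|) / 2 :=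
  ENNReal.toReal_ofReal (by positivity)

theorem lap_integrable {g : ℝ → ℝ} :
    Integrable g lap ↔ Integrable (fun x : ℝ => Real.exp (-|x|) / 2 * g x) := by
  unfold lap
  rw [integrable_withDensity_iff_integrable_smul' dens_meas
    (Filter.Eventually.of_forall (fun x => ENNReal.ofReal_lt_top))]
  simp only [dens_toReal, smul_eq_mul]

theorem lap_integral (g : ℝ → ℝ) : ∫ x, g x ∂lap = ∫ x : ℝ, Real.exp (-|x|) / 2 * g x := by
  unfold lap
  rw [integral_withDensity_eq_integral_toReal_smul dens_meas
    (Filter.Eventually.of_forall (fun x => ENNReal.ofReal_lt_top))]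
  simp only [dens_toReal, smul_eq_mul]

theorem integrable_exp_mom (k : ℕ) (c : ℝ) (hc : c < 1) :
    Integrable (fun x : ℝ => |x| ^ k * Real.exp (c * |x|)) lap := by
  rw [lap_integrable]
  have h1 := integrableOn_rpow_mul_exp_neg_mul_rpow (p := 1) (s := (k : ℝ)) (b := 1 - c)
    (by have : (0 : ℝ) ≤ k := by positivity
        linarith) one_pos (by linarith)
  have h2 : IntegrableOn (fun x : ℝ => Real.exp (-x) / 2 * (x ^ k * Real.exp (c * x))) (Set.Ioi 0) := by
    have h3 : IntegrableOn (fun x : ℝ => x ^ (k : ℝ) * Real.exp (-(1 - c) * x ^ (1 : ℝ)) * (1 / 2))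
        (Set.Ioi 0) := h1.mul_const (1 / 2)
    refine h3.congr_fun (fun x _ => ?_) measurableSet_Ioi
    simp only [Real.rpow_one, Real.rpow_natCast]
    have : Real.exp (-(1 - c) * x) = Real.exp (-x) * Real.exp (c * x) := by
      rw [← Real.exp_add]
      congr 1
      ring
    rw [this]
    ring
  exact integrable_abs (f := fun x : ℝ => Real.exp (-x) / 2 * (x ^ k * Real.exp (c * x))) h2

theorem integrable_abs_pow (k : ℕ) : Integrable (fun x : ℝ => |x| ^ k) lap := by
  have h := integrable_exp_mom k 0 (by norm_num)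
  simpa using h

theorem integral_abs_pow (k : ℕ) : ∫ x, |x| ^ k ∂lap = (k.factorial : ℝ) := by
  rw [lap_integral]
  have h1 : (∫ x : ℝ, (fun y : ℝ => Real.exp (-y) / 2 * y ^ k) |x|) =
      2 * ∫ x in Set.Ioi (0 : ℝ), (fun y : ℝ => Real.exp (-y) / 2 * y ^ k) x :=
    integral_comp_abs (f := fun y : ℝ => Real.exp (-y) / 2 * y ^ k)
  simp only at h1
  rw [h1, ← Real.Gamma_nat_eq_factorial, Real.Gamma_eq_integral (by positivity), ← integral_const_mul]
  refine setIntegral_congr_fun measurableSet_Ioi (fun x _ => ?_)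
  simp only [add_sub_cancel_right, Real.rpow_natCast]
  ring

theorem gp_l1 : Pool.Agent.H174.GP.S_L1 := by
  refine ⟨?_, ?_, ?_, ?_, integrable_abs_pow, integrable_exp_mom⟩
  · have h := integral_abs_pow 2
    simp only [sq_abs] at h
    rw [h]
    norm_num [Nat.factorial]
  · have h := integral_abs_pow 4
    have e : ∀ x : ℝ, |x| ^ 4 = x ^ 4 := fun x => by
      rw [show (4 : ℕ) = 2 * 2 by norm_num, pow_mul, pow_mul, sq_abs]
    simp only [e] at h
    rw [h]
    norm_num [Nat.factorial]
  · have h := integral_abs_pow 1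
    simp only [pow_one] at h
    rw [h]
    norm_num
  · intro k
    have hm : AEStronglyMeasurable (fun x : ℝ => x ^ k) lap := by
      have : Measurable (fun x : ℝ => x ^ k) := by fun_prop
      exact this.aestronglyMeasurable
    refine (integrable_abs_pow k).mono' hm (Filter.Eventually.of_forall fun x => ?_)
    rw [norm_pow, Real.norm_eq_abs]

end Pool.Agent.H597.GP174
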